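import Mathlib

/-! # Trees given by a parent function -/

set_option autoImplicit false

namespace Run7.h883

open SimpleGraph

/-- `w` is a descendant of `u` for the parent function `p` with root `r` -/
inductive Desc {V : Type*} (r : V) (p : V → V) (u : V) : V → Prop
  | refl : Desc r p u u
  | step (w : V) : w ≠ r → Desc r p u (p w) → Desc r p u w

theorem Desc.depth {V : Type*} {r : V} {p : V → V} {d : V → ℕ}
    (hd : ∀ v, v ≠ r → d v = d (p v) + 1) {u w : V} (h : Desc r p u w) : d u ≤ d w := by
  induction h with
  | refl => exact le_rfl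
  | step w hw _ ih => rw [hd w hw]; omega

theorem isTree_of_parent {V : Type*} (G : SimpleGraph V) (r : V) (p : V → V) (d : V → ℕ)
    (hd : ∀ v, v ≠ r → d v = d (p v) + 1)
    (hadj : ∀ u v, G.Adj u v ↔ (u ≠ r ∧ p u = v) ∨ (v ≠ r ∧ p v = u)) : G.IsTree := by
  have hreach : ∀ n : ℕ, ∀ v, d v = n → G.Reachable v r := by
    intro n
    induction n using Nat.strong_induction_on with
    | _ n ih =>
      intro v hv
      by_cases h : v = r
      · rw [h]
      · have h1 : G.Adj v (p v) := (hadj _ _).2 (Or.inl ⟨h, rfl⟩)
        have h2 := hd v h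
        exact h1.reachable.trans (ih (d (p v)) (by omega) (p v) rfl)
  have hconn : G.Connected := by
    have : Nonempty V := ⟨r⟩
    exact ⟨fun u v => (hreach _ u rfl).trans (hreach _ v rfl).symm⟩
  refine ⟨hconn, ?_⟩
  rw [isAcyclic_iff_forall_adj_isBridge]
  have key : ∀ u, u ≠ r → G.IsBridge s(u, p u) := by
    intro u hu
    rw [isBridge_iff]
    intro hre
    have h1 : ∀ w, (G \ fromEdgeSet {s(u, p u)}).Reachable u w → Desc r p u w := by
      intro w hw
      rw [reachable_iff_reflTransGen] at hw
      induction hw with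
      | refl => exact Desc.refl
      | tail _ hbc ih =>
        rename_i b c _
        rw [sdiff_adj, fromEdgeSet_adj] at hbc
        obtain ⟨h2, h3⟩ := hbc
        rcases (hadj _ _).1 h2 with ⟨hb, hpb⟩ | ⟨hc, hpc⟩
        · cases ih with
          | refl =>
            exfalso
            apply h3
            rw [hpb]
            exact ⟨rfl, by rintro rfl; exact G.loopless.irrefl _ h2⟩
          | step _ _ h4 => rw [hpb] at h4; exact h4
        · exact Desc.step c hc (by rw [hpc]; exact ih)
    have h4 := (h1 _ hre).depth hd
    have h5 := hd u hu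
    omega
  intro u v huv
  rcases (hadj u v).1 huv with ⟨hu, rfl⟩ | ⟨hv, rfl⟩
  · exact key u hu
  · rw [Sym2.eq_swap]
    exact key v hv

end Run7.h883
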